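import Pool.Agent.U270.SX.Main
import Pool.Agent.Y2.Cv.EvenH2

/-!
# Hodge characters with at most eight entries of odd degree
-/

set_option autoImplicit false

namespace Pool.Agent.U270.SX

open Finset Pool.Agent.H916R2 Pool.Agent.Y2 Pool.Agent.Y2.Cv

lemma good2_smooth {e : ℕ} (he : e % 2 = 1)
    (h : ∀ p, p.Prime → p ∣ e → p = 3 ∨ p = 5 ∨ p = 7) : GoodDegree2 (2 * e) := by
  right; right; right; right; right; left
  refine ⟨by omega, Or.inl ?_⟩
  intro p hp hpm
  rcases hp.dvd_mul.mp hpm with h1 | h1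
  · exact Or.inl ((Nat.prime_dvd_prime_iff_eq hp Nat.prime_two).mp h1)
  · rcases h p hp h1 with h | h | h
    · exact Or.inr (Or.inl h)
    · exact Or.inr (Or.inr (Or.inl h))
    · exact Or.inr (Or.inr (Or.inr h))

lemma killsG_cQ {m : ℕ} (hm : m ≠ 0) :
    KillsG (fun e => GoodDegree2 (2 * e)) m
      (fun b : ZMod m => cQ (2 * m) (SurfaceOrCurveProduct (2 * m)) (iota 2 b)) := by
  intro l e hle hg A hA hrel
  have h2m : 2 * m ≠ 0 := by omega
  have he0 : e ≠ 0 := by rintro rfl; rw [mul_zero] at hle; exact hm hle.symm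
  have h1 := killsC_cQ h2m l (2 * e) (by rw [← hle]; ring) (by omega) hg (A.map fun a => 2 * a) (by
    intro t ht
    rw [SW_lmul (by omega) rfl, hrel t (Nat.Coprime.coprime_mul_left_right ht), mul_zero])
  rw [Multiset.map_map] at h1
  rw [← h1]
  congr 1
  apply Multiset.map_congr rfl
  intro a _
  simp only [Function.comp_apply]
  rw [iota_natCast rfl]
  congr 2; ring

/-- **Hodge characters with at most eight entries of odd degree.** -/
theorem main_eight {m : ℕ} (hodd : m % 2 = 1) (s : Multiset (ZMod m)) (hs : IsHodge m s)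
    (hcard : Multiset.card s ≤ 8) (hne : s ≠ 0) :
    Generated (2 * m) (SurfaceOrCurveProduct (2 * m))
      (s.map fun a => ((2 * a.val : ℕ) : ZMod (2 * m))) := by
  have hm : m ≠ 0 := by rintro rfl; simp at hodd
  have hN : NeZero m := ⟨hm⟩
  have hN' : NeZero (2 * m) := ⟨by omega⟩
  have hiota : (s.map fun a => ((2 * a.val : ℕ) : ZMod (2 * m))) =
      s.map (iota 2 : ZMod m → ZMod (2 * m)) := rfl
  have h2s := hs.iota (m := 2 * m) (k := 2) rfl
  have h1 := eight_zero (fun e => GoodDegree2 (2 * e)) (fun e he h => good2_smooth he h)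
    good66' good78' m hodd (s.map ZMod.val) (by rwa [Multiset.card_map]) (by
    intro a ha h
    obtain ⟨b, hb', rfl⟩ := Multiset.mem_map.mp ha
    have h3 := (ZMod.natCast_eq_zero_iff b.val m).mpr h
    rw [ZMod.natCast_zmod_val] at h3
    exact hs.1 (h3 ▸ hb')) (fun t ht => saw_rel s hs t ht) _
    (fun b : ZMod m => cQ (2 * m) (SurfaceOrCurveProduct (2 * m)) (iota 2 b))
    (cQ_oddDist.comp_iota rfl) (killsG_cQ hm)
  rw [Multiset.map_map] at h1
  have h2 : ((s.map fun a => ((2 * a.val : ℕ) : ZMod (2 * m))).map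
      (cQ (2 * m) (SurfaceOrCurveProduct (2 * m)))).sum = 0 := by
    rw [hiota, Multiset.map_map, ← h1]
    congr 1
    apply Multiset.map_congr rfl
    intro a _
    simp only [Function.comp_apply]
    rw [ZMod.natCast_zmod_val]
  rw [cQ_sum, QuotientAddGroup.eq_zero_iff] at h2
  rw [hiota] at h2 ⊢
  exact generated_of_mem_LL base_good base_neg h2s.1 h2s.2.1 (by
    intro h
    rw [Multiset.map_eq_zero] at h
    exact hne h) h2

end Pool.Agent.U270.SX
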