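import Pool.Agent.U270.SX.Fine

/-!
# The dichotomy

The part prime to `q` of a relation of odd level `q d` with fewer than `q - 1` entries either has
vanishing sums of signs of level `d`, or it is `(q - 1) / 2` times a residue `c` and the complement
is zero or minus `c`.
-/

set_option autoImplicit false

namespace Pool.Agent.U270.SX

open Finset Pool.Agent.H916R2 Pool.Agent.Y2

variable {q d m : ℕ} {A1 A2 : Multiset ℕ}

lemma exists_mul_q (hqc : Nat.Coprime q d) (hd : d ≠ 0) {z : ℕ} (hz : Nat.Coprime z d) :
    ∃ u, Nat.Coprime u d ∧ q * u ≡ z [MOD d] := by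
  obtain ⟨u, _, hu⟩ := Nat.exists_mul_mod_eq_of_coprime z hqc hd
  have hu' : q * u ≡ z [MOD d] := hu
  refine ⟨u, ?_, hu'⟩
  have h3 : Nat.Coprime (q * u) d := by
    have : Nat.gcd (q * u) d = Nat.gcd z d := hu'.gcd_eq
    rw [Nat.Coprime, this]; exact hz
  exact Nat.Coprime.coprime_mul_left h3

theorem dichotomy (H : Setting q d m A1 A2) (hnd : ¬ q ∣ d) {h : ℕ} (hh : 2 * h = q - 1)
    (h1 : 1 ≤ h) (hcard : Multiset.card A1 < 2 * h) (hA2 : ∀ b ∈ A2, ¬ d ∣ b)
    (hex : ¬ ∀ z, Nat.Coprime z d → |SW d (A1.filter fun a => ¬ d ∣ a) z| = h * d) :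
    (∀ z, Nat.Coprime z d → ST d A1 z = 0) ∨
    ∃ c, ¬ d ∣ c ∧ (∀ z, Nat.Coprime z d → SW d A1 z = h * sv d (z * c)) ∧
      h ≤ Multiset.card A1 ∧
      ((Multiset.card A2 % 2 = 0 ∧ d ∣ (q - 1) * c ∧ ∀ z, Nat.Coprime z d → SW d A2 z = 0) ∨
       (Multiset.card A2 % 2 = 1 ∧ d ∣ (q + 1) * c ∧
          ∀ z, Nat.Coprime z d → SW d A2 z = - sv d (z * c))) := by
  have hd := H.hd
  have hdo := H.dodd
  have hdz : (d : ℤ) ≠ 0 := by exact_mod_cast hd
  have hhz : (0 : ℤ) < h := by exact_mod_cast (by omega : 0 < h)
  have hqcop : Nat.Coprime q d := (Nat.Prime.coprime_iff_not_dvd H.hq).mpr hnd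
  obtain ⟨h0, hh0, T, hT', hpar, -⟩ := H.theta_div
  have e1 : h0 = h := by
    rcases hh0 with ⟨_, h2⟩ | ⟨h2, _⟩
    · exact absurd h2 hnd
    · omega
  subst e1
  have hT3 : ∀ z, Nat.Coprime z d → T z = -1 ∨ T z = 0 ∨ T z = 1 := by
    intro z hz
    have h3 := (ST_bound A1 hz).1
    have h4 : (nz d A1 : ℤ) < 2 * h0 := by
      have h5 : nz d A1 ≤ Multiset.card A1 := Multiset.card_le_card (Multiset.filter_le _ _)
      have h6 : nz d A1 < 2 * h0 := by omega
      exact_mod_cast h6
    rw [← hT' z hz, abs_mul, Nat.abs_cast] at h3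
    have h7 : |T z| < 2 := by
      by_contra hcon
      push Not at hcon
      nlinarith
    rw [abs_lt] at h7
    omega
  have hz1 := Nat.coprime_one_left d
  by_cases hT0 : T 1 = 0
  · left
    intro z hz
    have h3 := hpar z hz
    have h4 := hT3 z hz
    have h5 : T z = 0 := by omega
    rw [← hT' z hz, h5, mul_zero]
  · right
    have hTabs : ∀ z, Nat.Coprime z d → |T z| = 1 := by
      intro z hz
      have h3 := hpar z hz
      have h4 := hT3 z hz
      have h5 := hT3 1 hz1
      have h6 : T z = -1 ∨ T z = 1 := by omega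
      rcases h6 with h6 | h6 <;> rw [h6] <;> rfl
    obtain ⟨c, hc, hS⟩ := one_residue H hnd hh h1 hex (fun z hz => by
      rw [← hT' z hz, abs_mul, Nat.abs_cast, hTabs z hz, mul_one])
    have hST : ∀ z, Nat.Coprime z d → ST d A1 z = h0 * th d (z * c) := by
      intro z hz
      have h3 := ST_SW hdo A1 z
      rw [hS z hz, hS (2 * z) (Nat.Coprime.mul_left (two_coprime hdo) hz)] at h3
      have h4 := th_saw hdo (z * c)
      rw [saw_sv hd, saw_sv hd, show 2 * (z * c) = 2 * z * c by ring] at h4
      apply mul_left_cancel₀ hdz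
      linear_combination h3 - h0 * h4
    have hqz : (q : ℤ) - 1 = 2 * h0 := by
      have h3 : q = 2 * h0 + 1 := by have := H.hq.two_le; omega
      have : (q : ℤ) = 2 * h0 + 1 := by exact_mod_cast h3
      linarith
    have hrel : ∀ u, Nat.Coprime u d →
        th d (q * u * c) - th d (u * c) + 2 * ST d A2 (q * u) = 0 := by
      intro u hu
      have h3 := H.relT hnd hu
      rw [hST _ (Nat.Coprime.mul_left hqcop hu), hST u hu, hqz] at h3
      apply mul_left_cancel₀ hhz.ne'
      linear_combination h3
    have hnz2 : nz d A2 = Multiset.card A2 := nz_eq_card hA2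
    have hcard1 : h0 ≤ Multiset.card A1 := by
      have h3 := (ST_bound A1 hz1).1
      rw [← hT' 1 hz1, abs_mul, Nat.abs_cast, hTabs 1 hz1, mul_one] at h3
      have h5 : nz d A1 ≤ Multiset.card A1 := Multiset.card_le_card (Multiset.filter_le _ _)
      have h6 : h0 ≤ nz d A1 := by exact_mod_cast h3
      omega
    refine ⟨c, hc, hS, hcard1, ?_⟩
    have hcases : ∀ u, Nat.Coprime u d → (th d (q * u * c) = -1 ∨ th d (q * u * c) = 1) ∧
        (th d (u * c) = -1 ∨ th d (u * c) = 1) := by
      intro u hu
      exact ⟨th_cases (by rwa [dvd_coprime_mul (Nat.Coprime.mul_left hqcop hu)]),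
        th_cases (by rwa [dvd_coprime_mul hu])⟩
    have hparity : ∀ u, Nat.Coprime u d → (ST d A2 (q * u) - Multiset.card A2) % 2 = 0 := by
      intro u hu
      have h3 := (ST_bound A2 (Nat.Coprime.mul_left hqcop hu)).2
      rwa [hnz2] at h3
    rcases Nat.mod_two_eq_zero_or_one (Multiset.card A2) with hev | hod
    · left
      have hz0 : ∀ u, Nat.Coprime u d → ST d A2 (q * u) = 0 := by
        intro u hu
        have h3 := hrel u hu
        obtain ⟨h4, h5⟩ := hcases u hu
        have h6 := hparity u hu
        omega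
      refine ⟨hev, ?_, ?_⟩
      · have h3 : q * c ≡ c [MOD d] := by
          apply th_inj hdo
          intro u hu
          have h4 := hrel u hu
          rw [hz0 u hu] at h4
          rw [show u * (q * c) = q * u * c by ring]
          linarith
        have h4 : (q - 1) * c + c = q * c := by
          obtain ⟨k, hk⟩ : ∃ k, q = k + 1 := ⟨q - 1, by have := H.hq.pos; omega⟩
          rw [hk]; simp; ring
        rw [← h4] at h3
        have h5 : (q - 1) * c + c ≡ 0 + c [MOD d] := by rwa [zero_add]
        exact (Nat.modEq_zero_iff_dvd).mp (Nat.ModEq.add_right_cancel' c h5)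
      · apply ST_zero hdo
        intro z hz
        obtain ⟨u, hu, huz⟩ := exists_mul_q hqcop hd hz
        rw [← ST_congr A2 huz]
        exact hz0 u hu
    · right
      have hval : ∀ u, Nat.Coprime u d → th d (q * u * c) = - th d (u * c) ∧
          ST d A2 (q * u) = th d (u * c) := by
        intro u hu
        have h3 := hrel u hu
        obtain ⟨h4, h5⟩ := hcases u hu
        have h6 := hparity u hu
        constructor <;> omega
      refine ⟨hod, ?_, ?_⟩
      · have h3 : d ∣ q * c + c := by
          apply th_inj_neg hdo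
          intro u hu
          rw [show u * (q * c) = q * u * c by ring]
          exact (hval u hu).1
        rwa [add_mul, one_mul]
      · have h3 : ∀ z, Nat.Coprime z d → SW d (A2 + {c}) z = 0 := by
          apply ST_zero hdo
          intro z hz
          obtain ⟨u, hu, huz⟩ := exists_mul_q hqcop hd hz
          rw [← ST_congr _ huz]
          have h4 : ST d (A2 + {c}) (q * u) = ST d A2 (q * u) + th d (q * u * c) := by
            unfold Pool.Agent.Y2.ST
            rw [Multiset.map_add, Multiset.sum_add, Multiset.map_singleton,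
              Multiset.sum_singleton]
          rw [h4, (hval u hu).1, (hval u hu).2, add_neg_cancel]
        intro z hz
        have h4 := h3 z hz
        rw [SW_add, SW_single hd] at h4
        linarith

end Pool.Agent.U270.SX
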