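import Pool.Agent.U270.SX.Sign

/-!
# The residue has order three

In the situation of `one_residue` the residue `c` does not have a prime order `≥ 5`: the sum over the
part prime to `q` of the values of an integral distribution of level `m`, minus the values at the
negatives, is invariant under the units congruent to one modulo `d`; so `q - 1` divides `(q - 1) / 2`
times the corresponding value at `c`, which can be chosen to be `1`.
-/

set_option autoImplicit false

namespace Pool.Agent.U270.SX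

open Finset Pool.Agent.H916R2 Pool.Agent.Y2

variable {q d m : ℕ} {A1 A2 : Multiset ℕ}

lemma SW_bind {ι : Type*} (s : Finset ι) (f : ι → Multiset ℕ) (t : ℕ) :
    SW m (s.val.bind f) t = ∑ j ∈ s, SW m (f j) t := by
  unfold SW
  rw [Multiset.map_bind, Multiset.sum_bind]
  rfl

lemma sum_bind {ι : Type*} (s : Finset ι) (f : ι → Multiset ℕ) (C : ℕ → ℤ) :
    ((s.val.bind f).map C).sum = ∑ j ∈ s, ((f j).map C).sum := by
  rw [Multiset.map_bind, Multiset.sum_bind]
  rfl

lemma SW_map_mul (X : Multiset ℕ) (κ t : ℕ) : SW m (X.map fun a => κ * a) t = SW m X (t * κ) := by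
  unfold SW
  rw [Multiset.map_map]
  congr 1
  apply Multiset.map_congr rfl
  intro a _
  simp only [Function.comp_apply]
  congr 2
  ring

lemma SW_replicate (h x t : ℕ) : SW m (Multiset.replicate h x) t = h * SW m {x} t := by
  unfold SW
  rw [Multiset.map_replicate, Multiset.sum_replicate, Multiset.map_singleton,
    Multiset.sum_singleton, nsmul_eq_mul]

lemma SW_single {d : ℕ} (hd : d ≠ 0) (x t : ℕ) : SW d {x} t = sv d (t * x) := by
  rw [SW_sv hd, Multiset.map_singleton, Multiset.sum_singleton]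

/-- sums over the units congruent to one modulo `d` -/
lemma sum_K {X : Multiset ℕ} (hq : q.Prime) (hqd : q * d = m) (hm : m ≠ 0)
    (hX : ∀ a ∈ X, ¬ q ∣ a) {e j0 : ℕ} (hj0 : j0 < q) (he : q * e = 1 + j0 * d)
    (huniq : ∀ j < q, q ∣ 1 + j * d → j = j0) {t : ℕ} (ht : ¬ q ∣ t) :
    ∑ j ∈ (range q).filter (fun j => ¬ q ∣ 1 + j * d), SW m X (t * (1 + j * d)) =
      q * SW d X t - q * SW d X (e * t) := by
  have h1 : ∑ j ∈ range q, SW m X (t * (1 + j * d)) = q * SW d X t := by
    rw [← SW_sum_shift hq hqd hm hX t]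
    have h2 := coset_mul (C := fun s => SW m X s) hq.pos hqd (fun x y h => SW_congr X h)
      (n := t) (by rw [Nat.coprime_comm, Nat.Prime.coprime_iff_not_dvd hq]; exact ht) t
    rw [← h2]
    refine sum_congr rfl fun j _ => ?_
    congr 1
    ring
  have h2 := Finset.sum_filter_add_sum_filter_not (range q) (fun j => ¬ q ∣ 1 + j * d)
    (fun j => SW m X (t * (1 + j * d)))
  have h3 : (range q).filter (fun j => ¬ ¬ q ∣ 1 + j * d) = {j0} := by
    ext j
    simp only [mem_filter, mem_range, not_not, mem_singleton]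
    constructor
    · rintro ⟨h4, h5⟩; exact huniq j h4 h5
    · rintro rfl; exact ⟨hj0, ⟨e, he.symm⟩⟩
  rw [h3, sum_singleton, h1, ← he] at h2
  rw [← h2, show t * (q * e) = q * (e * t) by ring, SW_level hm hqd]
  ring

lemma TT_congr {r x y : ℕ} (h : x ≡ y [MOD r ^ (m.factorization r)]) : TT r m x ↔ TT r m y := by
  unfold TT
  have : x % r ^ (m.factorization r) = y % r ^ (m.factorization r) := h
  rw [this]

lemma pow_dvd_d (hq : q.Prime) (hqd : q * d = m) {r : ℕ} (hr : r ∈ PO q m) :
    r ^ (m.factorization r) ∣ d := by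
  obtain ⟨hr1, _, hr3⟩ := PO_prime hr
  have h1 : r ^ (m.factorization r) ∣ q * d := by rw [hqd]; exact Nat.ordProj_dvd m r
  apply Nat.Coprime.dvd_of_dvd_mul_left _ h1
  exact Nat.Coprime.pow_left _ ((Nat.coprime_primes hr1 hq).mpr hr3)

/-- The contradiction for a residue such that `c` and `-c` are basic. -/
theorem fine0 (H : Setting q d m A1 A2) (hnd : ¬ q ∣ d) {h : ℕ} (hh : 2 * h = q - 1) {c : ℕ}
    (hqc : ¬ q ∣ c) (hc : ¬ d ∣ c) (hTT : ∀ r ∈ PO q m, TT r m c ∧ TT r m ((m - 1) * c))
    (hS : ∀ z, Nat.Coprime z d → SW d A1 z = h * sv d (z * c)) : False := by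
  have hq := H.hq
  have hqd := H.hqd
  have hm := H.hm
  have hd := H.hd
  have hqo := H.qodd
  have hdo := H.dodd
  have hqdm : q ∣ m := Dvd.intro _ hqd
  have hdm : d ∣ m := Dvd.intro_left _ hqd
  have hq1 := hq.one_lt
  have hqcop : Nat.Coprime q d := (Nat.Prime.coprime_iff_not_dvd hq).mpr hnd
  have hPp' : ∀ r ∈ PO q m, r.Prime ∧ r ∣ m := fun r hr => ⟨(PO_prime hr).1, (PO_prime hr).2.1⟩
  -- the excluded index
  obtain ⟨e, he⟩ : ∃ e, q * e ≡ 1 [MOD d] := by
    obtain ⟨e, _, he⟩ := Nat.exists_mul_mod_eq_of_coprime 1 hqcop hd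
    exact ⟨e, he⟩
  obtain ⟨j0, hj0, hj0q⟩ : ∃ j0 < q, q ∣ 1 + j0 * d := by
    obtain ⟨j, hj, hj'⟩ := Nat.exists_mul_mod_eq_of_coprime (q - 1) (Nat.coprime_comm.mp hqcop)
      hq.pos.ne'
    refine ⟨j, hj, ?_⟩
    apply Nat.dvd_of_mod_eq_zero
    have h1 : (d * j) % q = q - 1 := by
      have h2 : (d * j) % q = (q - 1) % q := hj'
      rw [h2, Nat.mod_eq_of_lt (by omega)]
    rw [Nat.add_mod, mul_comm j d, h1, Nat.mod_eq_of_lt hq1]
    have : 1 + (q - 1) = q := by omega
    rw [this, Nat.mod_self]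
  have huniq : ∀ j < q, q ∣ 1 + j * d → j = j0 := by
    intro j hj hjq
    have h1 : 1 + j * d ≡ 1 + j0 * d [MOD q] :=
      ((Nat.modEq_zero_iff_dvd).mpr hjq).trans ((Nat.modEq_zero_iff_dvd).mpr hj0q).symm
    have h2 : j * d ≡ j0 * d [MOD q] := Nat.ModEq.add_left_cancel' 1 h1
    have h3 : j ≡ j0 [MOD q] := Nat.ModEq.cancel_right_of_coprime hqcop h2
    exact Nat.ModEq.eq_of_lt_of_lt h3 hj hj0
  obtain ⟨e, he⟩ := hj0q
  have hecop : Nat.Coprime e d := by
    have h1 : Nat.Coprime (q * e) d := by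
      rw [← he, Nat.coprime_add_mul_right_left]
      exact Nat.coprime_one_left d
    exact Nat.Coprime.coprime_mul_left h1
  set K := (range q).filter (fun j => ¬ q ∣ 1 + j * d) with hK
  have hKcard : (K.card : ℤ) = q - 1 := by
    have h1 := Finset.card_filter_add_card_filter_not (s := range q) (fun j => ¬ q ∣ 1 + j * d)
    have h3 : (range q).filter (fun j => ¬ ¬ q ∣ 1 + j * d) = {j0} := by
      ext j
      simp only [mem_filter, mem_range, not_not, mem_singleton]
      constructor
      · rintro ⟨h4, h5⟩; exact huniq j h4 h5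
      · rintro rfl; exact ⟨hj0, ⟨e, he⟩⟩
    rw [h3, card_singleton, card_range] at h1
    have h2 : K.card + 1 = q := h1
    have : ((K.card + 1 : ℕ) : ℤ) = q := by exact_mod_cast h2
    push_cast at this
    linarith
  have hKm : ∀ j ∈ K, j < q ∧ ¬ q ∣ 1 + j * d := fun j hj => by
    rw [hK, mem_filter, mem_range] at hj; exact hj
  have hκc : ∀ j ∈ K, Nat.Coprime (1 + j * d) m := by
    intro j hj
    rw [← hqd]
    apply Nat.Coprime.mul_right
    · rw [Nat.coprime_comm, Nat.Prime.coprime_iff_not_dvd hq]; exact (hKm j hj).2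
    · rw [Nat.coprime_add_mul_right_left]
      exact Nat.coprime_one_left d
  have hκd : ∀ j, 1 + j * d ≡ 1 [MOD d] := by
    intro j
    have : 1 + j * d ≡ 1 + 0 [MOD d] :=
      Nat.ModEq.add_left 1 ((Nat.modEq_zero_iff_dvd).mpr (Dvd.intro_left _ rfl))
    exact this
  have h0K : 0 ∈ K := by
    rw [hK, mem_filter, mem_range]
    refine ⟨hq.pos, ?_⟩
    rw [zero_mul, add_zero]
    intro h1
    exact hq1.ne' (Nat.dvd_one.mp h1)
  -- the distribution
  let v : ℕ → ℤ := fun x => if x = c % m then 1 else 0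
  obtain ⟨C, hC, hCv⟩ := exists_td hq hqdm hm v
  have hm1 : 1 ≤ m := Nat.one_le_iff_ne_zero.mpr hm
  have hm1c : Nat.Coprime (m - 1) m := by
    have h1 := Nat.coprime_self_sub_right (m := 1) (n := m) hm1
    rw [Nat.coprime_comm]
    exact h1.mpr (Nat.coprime_one_right m)
  have hm1s : ∀ x, x + (m - 1) * x = m * x := by
    intro x
    obtain ⟨k, hk⟩ : ∃ k, m = k + 1 := ⟨m - 1, by omega⟩
    rw [hk]
    simp; ring
  let Cm : ℕ → ℤ := fun x => C x - C ((m - 1) * x)
  have hCm : TD q m (PO q m) Cm := hC.sub (hC.mul hPp' hm1c)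
  have hCmo : ∀ x y, m ∣ x + y → Cm y = - Cm x := by
    intro x y hxy
    have h1 : y ≡ (m - 1) * x [MOD m] := by
      apply Nat.ModEq.add_left_cancel' x
      rw [hm1s]
      exact ((Nat.modEq_zero_iff_dvd).mpr hxy).trans
        ((Nat.modEq_zero_iff_dvd).mpr (Dvd.intro _ rfl)).symm
    have h2 : (m - 1) * y ≡ x [MOD m] := by
      apply Nat.ModEq.add_left_cancel' y
      rw [hm1s, add_comm y x]
      exact ((Nat.modEq_zero_iff_dvd).mpr (Dvd.intro _ rfl)).trans
        ((Nat.modEq_zero_iff_dvd).mpr hxy).symm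
    simp only [Cm]
    rw [hC.per _ _ h1, hC.per _ _ h2]
    ring
  -- invariance
  have hinv' : ∀ j ∈ K, ((A1.map fun a => (1 + j * d) * a).map Cm).sum = (A1.map Cm).sum := by
    intro j hj
    refine star2 hq hm (A1.map fun a => (1 + j * d) * a) A1 (fun _ a ha => by
      obtain ⟨b, hb, rfl⟩ := Multiset.mem_map.mp ha
      intro h
      rcases (Nat.Prime.dvd_mul hq).mp h with h | h
      · exact (hKm j hj).2 h
      · exact H.hA b hb h) (fun _ => H.hA) (fun i t htc => ?_) hCm hCmo
    rw [SW_map_mul, mul_assoc]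
    exact H.hinv i t _ htc (hκc j hj) (hκd j)
  -- comparison with the residue `c`
  have hcmp := star2 hq hm (K.val.bind fun j => A1.map fun a => (1 + j * d) * a)
    (K.val.bind fun j => Multiset.replicate h ((1 + j * d) * c)) (fun _ a ha => by
      obtain ⟨j, hj, ha⟩ := Multiset.mem_bind.mp ha
      obtain ⟨b, hb, rfl⟩ := Multiset.mem_map.mp ha
      intro h
      rcases (Nat.Prime.dvd_mul hq).mp h with h | h
      · exact (hKm j hj).2 h
      · exact H.hA b hb h) (fun _ a ha => by
      obtain ⟨j, hj, ha⟩ := Multiset.mem_bind.mp ha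
      rw [Multiset.eq_of_mem_replicate ha]
      intro h
      rcases (Nat.Prime.dvd_mul hq).mp h with h | h
      · exact (hKm j hj).2 h
      · exact hqc h) (fun i t ht => by
      rw [SW_bind, SW_bind]
      have e1 : ∀ j, SW m (Multiset.replicate h ((1 + j * d) * c)) (q ^ i * t) =
          h * SW m {c} ((q ^ i * t) * (1 + j * d)) := by
        intro j
        rw [SW_replicate, SW_single hm, SW_single hm]
        congr 2
        ring
      simp only [e1, SW_map_mul]
      rw [← mul_sum]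
      have htd : Nat.Coprime t d := Nat.Coprime.coprime_dvd_right hdm ht
      rcases Nat.eq_zero_or_pos i with rfl | hi
      · rw [pow_zero, one_mul]
        have htq : ¬ q ∣ t := by
          intro h1
          have h2 : q ∣ Nat.gcd t m := Nat.dvd_gcd h1 hqdm
          rw [ht] at h2
          exact hq1.ne' (Nat.dvd_one.mp h2)
        rw [hK, sum_K hq hqd hm H.hA hj0 he.symm huniq htq,
          sum_K hq hqd hm (X := {c}) (fun a ha => by
            rw [Multiset.mem_singleton] at ha; rw [ha]; exact hqc) hj0 he.symm huniq htq,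
          hS t htd, hS (e * t) (Nat.Coprime.mul_left hecop htd), SW_single hd, SW_single hd]
        ring
      · obtain ⟨i', rfl⟩ : ∃ j, i = j + 1 := ⟨i - 1, by omega⟩
        rw [mul_sum]
        refine sum_congr rfl fun j _ => ?_
        have hs : Nat.Coprime (q ^ i' * t) d := Nat.Coprime.mul_left (hqcop.pow_left _) htd
        have e2 : q ^ (i' + 1) * t * (1 + j * d) = q * (q ^ i' * t * (1 + j * d)) := by ring
        have e3 : q ^ i' * t * (1 + j * d) ≡ q ^ i' * t [MOD d] := by
          have := (hκd j).mul_left (q ^ i' * t)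
          rwa [mul_one] at this
        rw [e2, SW_level hm hqd, SW_level hm hqd, SW_congr _ e3, SW_congr _ e3, hS _ hs,
          SW_single hd]
        ring) hCm hCmo
  rw [sum_bind, sum_bind, sum_congr rfl hinv', sum_const, nsmul_eq_mul] at hcmp
  -- the values
  have hTc : ∀ j, ∀ r ∈ PO q m, TT r m ((1 + j * d) * c) := by
    intro j r hr
    refine (TT_congr ?_).mpr (hTT r hr).1
    have h1 := ((hκd j).of_dvd (pow_dvd_d hq hqd hr)).mul_right c
    rwa [one_mul] at h1
  have hTc' : ∀ j, ∀ r ∈ PO q m, TT r m ((m - 1) * ((1 + j * d) * c)) := by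
    intro j r hr
    refine (TT_congr ?_).mpr (hTT r hr).2
    have h1 := ((hκd j).of_dvd (pow_dvd_d hq hqd hr)).mul_right c
    rw [one_mul] at h1
    exact h1.mul_left (m - 1)
  have hndc : ∀ j ∈ K, ¬ q ∣ (1 + j * d) * c := by
    intro j hj h
    rcases (Nat.Prime.dvd_mul hq).mp h with h | h
    · exact (hKm j hj).2 h
    · exact hqc h
  have hndm1 : ¬ q ∣ m - 1 := by
    intro h1
    have h2 : q ∣ Nat.gcd (m - 1) m := Nat.dvd_gcd h1 hqdm
    rw [hm1c] at h2
    exact hq1.ne' (Nat.dvd_one.mp h2)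
  have hval : ∀ j ∈ K, ((Multiset.replicate h ((1 + j * d) * c)).map Cm).sum =
      if j = 0 then (h : ℤ) else 0 := by
    intro j hj
    rw [Multiset.map_replicate, Multiset.sum_replicate, nsmul_eq_mul]
    have e1 : C ((m - 1) * ((1 + j * d) * c)) = 0 := by
      rw [hCv _ (by
        intro h1
        rcases (Nat.Prime.dvd_mul hq).mp h1 with h1 | h1
        · exact hndm1 h1
        · exact hndc j hj h1) (hTc' j)]
      simp only [v]
      rw [if_neg]
      intro h1
      have h2 : (m - 1) * ((1 + j * d) * c) ≡ c [MOD m] := h1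
      have h3 : (m - 1) * ((1 + j * d) * c) ≡ c [MOD d] := h2.of_dvd hdm
      have h4 : (1 + j * d) * c ≡ c [MOD d] := by
        have := (hκd j).mul_right c
        rwa [one_mul] at this
      have h5 : (1 + j * d) * c + (m - 1) * ((1 + j * d) * c) ≡ c + c [MOD d] := h4.add h3
      rw [hm1s] at h5
      have h6 : d ∣ c + c := (h5.dvd_iff dvd_rfl).mp (hdm.mul_right _)
      have h7 : d ∣ 2 * c := by rwa [two_mul]
      exact hc (Nat.Coprime.dvd_of_dvd_mul_left (Nat.coprime_comm.mp (two_coprime hdo)) h7)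
    have e2 : C ((1 + j * d) * c) = if j = 0 then 1 else 0 := by
      rw [hCv _ (hndc j hj) (hTc j)]
      simp only [v]
      by_cases hj0' : j = 0
      · rw [if_pos hj0', hj0', zero_mul, add_zero, one_mul, if_pos rfl]
      · rw [if_neg hj0', if_neg]
        intro h1
        have h2 : (1 + j * d) * c ≡ c [MOD m] := h1
        have h3 : c + j * d * c ≡ c + 0 [MOD m] := by
          rw [add_zero]
          have : (1 + j * d) * c = c + j * d * c := by ring
          rwa [this] at h2
        have h4 : m ∣ j * d * c :=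
          (Nat.modEq_zero_iff_dvd).mp (Nat.ModEq.add_left_cancel' c h3)
        rw [← hqd, show j * d * c = j * c * d by ring] at h4
        have h5 : q ∣ j * c := Nat.dvd_of_mul_dvd_mul_right (Nat.pos_of_ne_zero hd) h4
        rcases (Nat.Prime.dvd_mul hq).mp h5 with h6 | h6
        · have := Nat.le_of_dvd (Nat.pos_of_ne_zero hj0') h6
          have := (hKm j hj).1
          omega
        · exact hqc h6
    simp only [Cm]
    rw [e1, e2]
    split_ifs <;> ring
  rw [sum_congr rfl hval, sum_ite_eq' K 0, if_pos h0K, hKcard] at hcmp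
  have h1 : (2 * (h : ℤ)) = q - 1 := by
    have : ((2 * h + 1 : ℕ) : ℤ) = q := by
      have : 2 * h + 1 = q := by omega
      exact_mod_cast this
    push_cast at this
    linarith
  rw [← h1] at hcmp
  have h2 : (h : ℤ) ≠ 0 := by
    have : h ≠ 0 := by omega
    exact_mod_cast this
  have h3 : (h : ℤ) * (2 * (A1.map Cm).sum) = h * 1 := by linear_combination hcmp
  have h4 := mul_left_cancel₀ h2 h3
  omega

/-- multiplication by a unit -/
lemma Setting_mul (H : Setting q d m A1 A2) {z : ℕ} (hz : Nat.Coprime z m) :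
    Setting q d m (A1.map fun a => z * a) (A2.map fun a => z * a) := by
  have hqdm : q ∣ m := Dvd.intro _ H.hqd
  refine ⟨H.hq, H.hqd, H.hodd, ?_, fun t ht => ?_⟩
  · intro a ha
    obtain ⟨b, hb, rfl⟩ := Multiset.mem_map.mp ha
    intro h
    rcases (Nat.Prime.dvd_mul H.hq).mp h with h | h
    · have h1 : q ∣ Nat.gcd z m := Nat.dvd_gcd h hqdm
      rw [hz] at h1
      exact H.hq.one_lt.ne' (Nat.dvd_one.mp h1)
    · exact H.hA b hb h
  · rw [SW_map_mul, SW_map_mul]
    exact H.hrel _ (Nat.Coprime.mul_left ht hz)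

/-- **The order of the residue is not a prime `≥ 5`.** -/
theorem fine (H : Setting q d m A1 A2) (hnd : ¬ q ∣ d) {h : ℕ} (hh : 2 * h = q - 1) {c : ℕ}
    (hc : ¬ d ∣ c) {r : ℕ} (hr : r.Prime) (hr5 : 5 ≤ r) (hrc : d ∣ r * c)
    (hS : ∀ z, Nat.Coprime z d → SW d A1 z = h * sv d (z * c)) : False := by
  have hq := H.hq
  have hqd := H.hqd
  have hm := H.hm
  have hd := H.hd
  have hqdm : q ∣ m := Dvd.intro _ hqd
  have hdm : d ∣ m := Dvd.intro_left _ hqd
  have hqcop : Nat.Coprime q d := (Nat.Prime.coprime_iff_not_dvd hq).mpr hnd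
  have hrd : r ∣ d := by
    by_contra h1
    have h2 : Nat.Coprime d r := by
      rw [Nat.coprime_comm, Nat.Prime.coprime_iff_not_dvd hr]; exact h1
    exact hc (h2.dvd_of_dvd_mul_left hrc)
  have hrq : r ≠ q := by rintro rfl; exact hnd hrd
  have hrm : r ∣ m := hrd.trans hdm
  have hrPO : r ∈ PO q m := by
    rw [PO, Finset.mem_erase, Nat.mem_primeFactors]
    exact ⟨hrq, hr, hrm, hm⟩
  obtain ⟨f, hf⟩ : ∃ f, m.factorization r = f + 1 :=
    ⟨m.factorization r - 1, by have := hr.factorization_pos_of_dvd hm hrm; omega⟩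
  have hrf : r ^ (f + 1) ∣ d := by rw [← hf]; exact pow_dvd_d hq hqd hrPO
  obtain ⟨d', hd'⟩ := hrf
  have hrd' : ¬ r ∣ d' := by
    rintro ⟨w, hw⟩
    have h1 : r ^ (f + 2) ∣ m := by
      refine Dvd.dvd.trans ?_ hdm
      rw [hd', hw]
      exact ⟨w, by ring⟩
    have h2 := (hr.pow_dvd_iff_le_factorization hm).mp h1
    omega
  obtain ⟨k, hk⟩ := hrc
  have hrpos : 0 < r := hr.pos
  have hck : c = r ^ f * (d' * k) := by
    have h1 : r * c = r * (r ^ f * (d' * k)) := by
      rw [hk, hd', pow_succ]; ring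
    exact Nat.eq_of_mul_eq_mul_left hrpos h1
  have hrk : ¬ r ∣ k := by
    rintro ⟨w, hw⟩
    apply hc
    rw [hck, hd', hw]
    exact ⟨w, by rw [pow_succ]; ring⟩
  have hcop : Nat.Coprime (d' * k) r := by
    rw [Nat.coprime_comm, Nat.Prime.coprime_iff_not_dvd hr]
    intro h1
    rcases (Nat.Prime.dvd_mul hr).mp h1 with h1 | h1
    · exact hrd' h1
    · exact hrk h1
  obtain ⟨w, _, hw⟩ := Nat.exists_mul_mod_eq_of_coprime 2 hcop hrpos.ne'
  have hw2 : (d' * k) * w ≡ 2 [MOD r] := hw
  have hwr : Nat.Coprime w r := by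
    rw [Nat.coprime_comm, Nat.Prime.coprime_iff_not_dvd hr]
    intro h1
    have h2 : r ∣ 2 := (hw2.dvd_iff dvd_rfl).mp (h1.mul_left _)
    have := Nat.le_of_dvd (by norm_num) h2
    omega
  obtain ⟨z, hz, hzw⟩ := lift_coprime hrm hm hwr
  -- the new residue
  let x := (Nat.chineseRemainder hqcop 1 (z * c) : ℕ)
  have hxq : x ≡ 1 [MOD q] := (Nat.chineseRemainder hqcop 1 (z * c)).2.1
  have hxd : x ≡ z * c [MOD d] := (Nat.chineseRemainder hqcop 1 (z * c)).2.2
  have hzd : Nat.Coprime z d := Nat.Coprime.coprime_dvd_right hdm hz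
  have hqx : ¬ q ∣ x := by
    intro h1
    have h2 : q ∣ 1 := (hxq.dvd_iff dvd_rfl).mp h1
    exact hq.one_lt.ne' (Nat.dvd_one.mp h2)
  have hdx : ¬ d ∣ x := by
    intro h1
    have h2 : d ∣ z * c := (hxd.dvd_iff dvd_rfl).mp h1
    rw [dvd_coprime_mul hzd] at h2
    exact hc h2
  have hm1 : 1 ≤ m := Nat.one_le_iff_ne_zero.mpr hm
  have hm1s : ∀ x, x + (m - 1) * x = m * x := by
    intro x
    obtain ⟨k, hk⟩ : ∃ k, m = k + 1 := ⟨m - 1, by omega⟩
    rw [hk]
    simp; ring
  refine fine0 (Setting_mul H hz) hnd hh hqx hdx ?_ ?_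
  · intro r' hr'
    obtain ⟨hr'1, hr'2, hr'3⟩ := PO_prime hr'
    by_cases hrr : r' = r
    · subst hrr
      have hpow : r' ^ (f + 1) = r' * r' ^ f := by rw [pow_succ]; ring
      have hp0 : 0 < r' ^ f := pow_pos hrpos f
      have h1 : x ≡ 2 * r' ^ f [MOD r' ^ (f + 1)] := by
        have h2 : x ≡ z * c [MOD r' ^ (f + 1)] := hxd.of_dvd ⟨d', hd'⟩
        refine h2.trans ?_
        have h3 : z * c = r' ^ f * (z * (d' * k)) := by rw [hck]; ring
        have h4 : z * (d' * k) ≡ 2 [MOD r'] := by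
          refine (hzw.mul_right (d' * k)).trans ?_
          rw [mul_comm]; exact hw2
        rw [h3, hpow, mul_comm r' (r' ^ f), mul_comm 2 (r' ^ f)]
        exact Nat.ModEq.mul_left' _ h4
      have h2lt : 2 * r' ^ f < r' ^ (f + 1) := by rw [hpow]; nlinarith
      have h2 : x % r' ^ (f + 1) = 2 * r' ^ f := by
        have : x % r' ^ (f + 1) = (2 * r' ^ f) % r' ^ (f + 1) := h1
        rw [this, Nat.mod_eq_of_lt h2lt]
      constructor
      · right
        rw [hf, Nat.add_sub_cancel, h2]
        omega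
      · right
        rw [hf, Nat.add_sub_cancel]
        have h3 : (x + (m - 1) * x) % r' ^ (f + 1) = 0 := by
          rw [hm1s]
          exact Nat.mod_eq_zero_of_dvd (((Dvd.intro _ hd'.symm).trans hdm).mul_right x)
        rw [Nat.add_mod, h2] at h3
        have h4 : ((m - 1) * x) % r' ^ (f + 1) < r' ^ (f + 1) := Nat.mod_lt _ (pow_pos hrpos _)
        obtain ⟨y, hy⟩ := Nat.dvd_of_mod_eq_zero h3
        have h5 : 5 * r' ^ f ≤ r' ^ (f + 1) := by
          rw [hpow]; exact Nat.mul_le_mul_right _ hr5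
        clear_value x
        clear hpow
        generalize r' ^ (f + 1) = R at *
        generalize ((m - 1) * x) % R = X at *
        generalize r' ^ f = F at *
        rcases Nat.eq_zero_or_pos y with h0 | h0
        · rw [h0, mul_zero] at hy
          omega
        · have h6 : R * 1 ≤ R * y := Nat.mul_le_mul_left _ h0
          omega
    · have h1 : r' ^ (m.factorization r') ∣ d := pow_dvd_d hq hqd hr'
      have h2 : r' ^ (m.factorization r') ∣ c := by
        have h3 : r' ^ (m.factorization r') ∣ r * c := h1.trans ⟨k, hk⟩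
        apply Nat.Coprime.dvd_of_dvd_mul_left _ h3
        exact Nat.Coprime.pow_left _ ((Nat.coprime_primes hr'1 hr).mpr hrr)
      have h3 : r' ^ (m.factorization r') ∣ x :=
        ((hxd.of_dvd h1).dvd_iff dvd_rfl).mpr (h2.mul_left z)
      exact ⟨Or.inl (Nat.mod_eq_zero_of_dvd h3), Or.inl (Nat.mod_eq_zero_of_dvd (h3.mul_left _))⟩
  · intro t ht
    rw [SW_map_mul, hS _ (Nat.Coprime.mul_left ht hzd)]
    congr 1
    apply sv_per
    rw [mul_assoc]
    exact (hxd.mul_left t).symm

end Pool.Agent.U270.SX
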