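import Pool.Agent.U270.SX.Dich
import Pool.Agent.Y2.EvenH

/-!
# Relations with at most eight entries of odd level
-/

set_option autoImplicit false

namespace Pool.Agent.U270.SX

open Finset Pool.Agent.H916R2 Pool.Agent.Y2

/-- the relations of the levels in `G` are killed -/
def KillsG (G : ℕ → Prop) (m : ℕ) {Q : Type} [AddCommGroup Q] (C : ZMod m → Q) : Prop :=
  ∀ l e : ℕ, l * e = m → G e → ∀ A : Multiset ℕ, (∀ a ∈ A, ¬ e ∣ a) →
    (∀ t, Nat.Coprime t e → SW e A t = 0) →
      (A.map fun a : ℕ => C ((l * a : ℕ) : ZMod m)).sum = 0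

lemma KillsG.comp {G : ℕ → Prop} {q d m : ℕ} (hqd : q * d = m) {Q : Type} [AddCommGroup Q]
    {C : ZMod m → Q} (h : KillsG G m C) : KillsG G d (fun b : ZMod d => C (iota q b)) := by
  intro l e hle hg A hA hrel
  rw [← h (q * l) e (by rw [mul_assoc, hle, hqd]) hg A hA hrel]
  congr 1
  apply Multiset.map_congr rfl
  intro a _
  change C (iota q ((l * a : ℕ) : ZMod d)) = _
  rw [iota_natCast hqd]
  congr 2; ring

/-- comparison of the part prime to `q` with a multiset of level `3 q` -/
lemma compare {q d m : ℕ} {A1 A2 : Multiset ℕ} (H : Setting q d m A1 A2) (hnd : ¬ q ∣ d) {h : ℕ}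
    {l τ c : ℕ} (hl : d = 3 * l) (hcτ : c ≡ l * τ [MOD d])
    (hS : ∀ z, Nat.Coprime z d → SW d A1 z = h * sv d (z * c)) (E : Multiset ℕ)
    (hE1 : ∀ x ∈ E, ¬ q ∣ x) (hE3 : ∀ z, Nat.Coprime z 3 → SW 3 E z = h * sv 3 (z * τ))
    (hEm : ∀ t, Nat.Coprime t m → SW m A1 t = l * SW (q * 3) E t)
    (Q : Type) [AddCommGroup Q] (C : ZMod m → Q) (hC : OddDist C) :
    (A1.map fun a : ℕ => C (a : ZMod m)).sum =
      (E.map fun x : ℕ => C ((l * x : ℕ) : ZMod m)).sum := by
  have hq := H.hq
  have hqd := H.hqd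
  have hm := H.hm
  have hd := H.hd
  have hqo := H.qodd
  have hq2 := hq.two_le
  have hlm : l * (q * 3) = m := by rw [← hqd, hl]; ring
  have hl3 : l * 3 = d := by rw [hl]; ring
  have hqc : Nat.Coprime q d := (Nat.Prime.coprime_iff_not_dvd hq).mpr hnd
  have hcopd : ∀ t, Nat.Coprime t m → Nat.Coprime t d := fun t ht =>
    Nat.Coprime.coprime_dvd_right (Dvd.intro_left q hqd) ht
  have hcop3 : ∀ z, Nat.Coprime z d → Nat.Coprime z 3 := fun z hz =>
    Nat.Coprime.coprime_dvd_right (Dvd.intro_left l hl3) hz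
  have hsvl : ∀ z, sv d (z * c) = l * sv 3 (z * τ) := by
    intro z
    rw [← sv_level hd hl3, sv_per (hcτ.mul_left z)]
    congr 1; ring
  have hB : ∀ x ∈ (E.map fun x => l * x), ¬ q ∣ x := by
    intro x hx h
    obtain ⟨y, hy, rfl⟩ := Multiset.mem_map.mp hx
    rcases (Nat.Prime.dvd_mul hq).mp h with h | h
    · exact hnd (by rw [hl]; exact h.mul_left 3)
    · exact hE1 y hy h
  have h1 := kill2 hq (Dvd.intro d hqd) hm (factor_pos hq (Dvd.intro d hqd) hm (by omega))
    (A := A1) (B := E.map fun x => l * x) H.hA hB (by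
      intro j t ht
      rcases Nat.eq_zero_or_pos j with rfl | hj
      · rw [pow_zero, one_mul, hEm t ht, SW_lmul hm hlm]
      · obtain ⟨i, rfl⟩ : ∃ i, j = i + 1 := ⟨j - 1, by omega⟩
        have hc : Nat.Coprime (q ^ i * t) d := Nat.Coprime.mul_left
          (Nat.Coprime.pow_left _ hqc) (hcopd t ht)
        rw [show q ^ (i + 1) * t = q * (q ^ i * t) by ring, SW_level hm hqd, SW_level hm hqd,
          hS _ hc, hsvl, SW_lmul hd hl3, hE3 _ (hcop3 _ hc)]
        ring) Q C hC
  rw [h1, Multiset.map_map]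
  rfl

/-- a residue of order three -/
lemma order_three {d c : ℕ} (hd : d ≠ 0) (h3c : d ∣ 3 * c) (hc : ¬ d ∣ c) :
    ∃ l τ, d = 3 * l ∧ (τ = 1 ∨ τ = 2) ∧ c ≡ l * τ [MOD d] := by
  obtain ⟨l, hl⟩ := three_dvd_of h3c hc
  obtain ⟨y, hy1, hy2, hy3⟩ := ord_val hd (by norm_num) h3c hc
  refine ⟨l, y, hl, by omega, ?_⟩
  have h1 : c % d = l * y := by
    have : 3 * (c % d) = 3 * (l * y) := by rw [hy3, hl]; ring
    omega
  rw [← h1]
  exact (Nat.mod_modEq c d).symm

/-- large primes -/
lemma case_big8 {q d m : ℕ} {A1 A2 : Multiset ℕ} (H : Setting q d m A1 A2) {N : ℕ}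
    (hcard : Multiset.card A1 ≤ N) (hbig : q ∣ d ∧ N < q ∨ 2 * N + 3 ≤ q) :
    ∀ z, Nat.Coprime z d → ST d A1 z = 0 := by
  obtain ⟨h, hh, T, hT, _, _⟩ := H.theta_div
  intro z hz
  have h1 := hT z hz
  have h2 := (ST_bound A1 hz).1
  have h3 : nz d A1 ≤ Multiset.card A1 := Multiset.card_le_card (Multiset.filter_le _ _)
  have h4 : (nz d A1 : ℤ) ≤ N := by exact_mod_cast h3.trans hcard
  have h5 : N < h := by
    rcases hh with ⟨e1, e2⟩ | ⟨e1, e2⟩
    · rcases hbig with ⟨_, h6⟩ | h6 <;> omega
    · rcases hbig with ⟨h6, _⟩ | h6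
      · exact absurd h6 e2
      · omega
  have h6 : (N : ℤ) < h := by exact_mod_cast h5
  have h7 : T z = 0 := by
    by_contra hne
    have h8 : (1 : ℤ) ≤ |T z| := Int.one_le_abs hne
    rw [← h1, abs_mul, Nat.abs_cast] at h2
    nlinarith
  rw [← h1, h7, mul_zero]

/-- **Relations with at most eight entries.** -/
theorem eight_zero (G : ℕ → Prop)
    (hG : ∀ e, e % 2 = 1 → (∀ p, p.Prime → p ∣ e → p = 3 ∨ p = 5 ∨ p = 7) → G e)
    (h33 : G 33) (h39 : G 39) :
    ∀ m : ℕ, m % 2 = 1 → ∀ A : Multiset ℕ, Multiset.card A ≤ 8 →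
    (∀ a ∈ A, ¬ m ∣ a) → (∀ t, Nat.Coprime t m → SW m A t = 0) →
    ∀ (Q : Type) [AddCommGroup Q] (C : ZMod m → Q), OddDist C → KillsG G m C →
      (A.map fun a : ℕ => C (a : ZMod m)).sum = 0 := by
  intro m
  induction m using Nat.strong_induction_on with
  | _ m ih =>
  intro hodd A hcard hA hrel Q _ C hC hK
  have hm : m ≠ 0 := by rintro rfl; simp at hodd
  have hN : NeZero m := ⟨hm⟩
  by_cases hg : ∀ p, p.Prime → p ∣ m → p = 3 ∨ p = 5 ∨ p = 7
  · have h1 := hK 1 m (one_mul m) (hG m hodd hg) A hA hrel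
    simpa only [one_mul] using h1
  have hev := card_even hodd hA hrel
  -- the induction hypothesis at level `d`
  have hIH : ∀ q d : ℕ, q.Prime → q * d = m → ∀ B : Multiset ℕ, Multiset.card B ≤ 8 →
      (∀ b ∈ B, ¬ d ∣ b) → (∀ t, Nat.Coprime t d → SW d B t = 0) →
      (B.map fun b : ℕ => C ((q * b : ℕ) : ZMod m)).sum = 0 := by
    intro q d hq hqd B hB hB0 hBrel
    have hd0 : d ≠ 0 := by rintro rfl; rw [mul_zero] at hqd; exact hm hqd.symm
    have hdodd : d % 2 = 1 := by
      rw [← hqd, ← Nat.odd_iff, Nat.odd_mul] at hodd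
      exact Nat.odd_iff.mp hodd.2
    have hdm : d < m := by
      rw [← hqd]
      have h3 := hq.two_le
      have h4 : 0 < d := Nat.pos_of_ne_zero hd0
      nlinarith
    have hNd : NeZero d := ⟨hd0⟩
    have h5 := ih d hdm hdodd B hB hB0 hBrel Q (fun b : ZMod d => C (iota q b))
      (hC.comp_iota hqd) (hK.comp hqd)
    rw [← h5]
    congr 1
    apply Multiset.map_congr rfl
    intro b _
    rw [iota_natCast hqd]
  -- the case of vanishing signs
  have hzero : ∀ q d : ℕ, q.Prime → q * d = m →
      (∀ z, Nat.Coprime z d → ST d (A.filter fun a => ¬ q ∣ a) z = 0) →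
      (¬ q ∣ d ∨ 16 < q * (q - 1)) →
      (A.map fun a : ℕ => C (a : ZMod m)).sum = 0 := by
    intro q d hq hqd h0 hsm
    have H := mkSetting hq hqd hodd A hrel
    have hc1 := card_split q A
    obtain ⟨h1, h2⟩ := H.peel0 h0 (hsm.imp id fun h => by omega)
    rw [split_sumE (q := q), h2 Q C hC, zero_add]
    exact hIH q d hq hqd _ (by omega) (ndvd_split hqd hA) h1
  -- large primes
  have hlarge : ∀ q, q.Prime → q ∣ m → 19 ≤ q → (A.map fun a : ℕ => C (a : ZMod m)).sum = 0 := by
    intro q hq hqm h19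
    obtain ⟨d, hd⟩ := hqm
    have H := mkSetting hq hd.symm hodd A hrel
    have hc1 := card_split q A
    refine hzero q d hq hd.symm (case_big8 H (N := 8) (by omega) (Or.inr (by omega))) (Or.inr ?_)
    have : 18 ≤ q - 1 := by omega
    nlinarith
  by_cases h19 : ∃ q, q.Prime ∧ q ∣ m ∧ 19 ≤ q
  · obtain ⟨q, hq, hqm, h⟩ := h19
    exact hlarge q hq hqm h
  push Not at h19
  -- a prime divisor of `d`
  have hpow : ∀ q d : ℕ, q.Prime → q * d = m → 11 ≤ q → q ∣ d →
      (A.map fun a : ℕ => C (a : ZMod m)).sum = 0 := by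
    intro q d hq hqd h11 hqdd
    have H := mkSetting hq hqd hodd A hrel
    have hc1 := card_split q A
    refine hzero q d hq hqd (case_big8 H (N := 8) (by omega) (Or.inl ⟨hqdd, by omega⟩)) (Or.inr ?_)
    have : 10 ≤ q - 1 := by omega
    nlinarith
  by_cases h17 : 17 ∣ m
  · obtain ⟨d, hd⟩ := h17
    have hq : Nat.Prime 17 := by norm_num
    by_cases hqd : 17 ∣ d
    · exact hpow 17 d hq hd.symm (by norm_num) hqd
    have H := mkSetting hq hd.symm hodd A hrel
    have hc1 := card_split 17 A
    have hdne := H.hd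
    rcases dichotomy H hqd (h := 8) rfl (by norm_num) (by omega) (ndvd_split hd.symm hA) (by
      intro hex
      have h1 := hex 1 (Nat.coprime_one_left d)
      have h2 := SW_abs hdne ((A.filter fun a => ¬ 17 ∣ a).filter fun a => ¬ d ∣ a) 1
      rw [h1] at h2
      have h3 : (Multiset.card ((A.filter fun a => ¬ 17 ∣ a).filter fun a => ¬ d ∣ a) : ℤ) ≤ 8 := by
        have h4 : Multiset.card ((A.filter fun a => ¬ 17 ∣ a).filter fun a => ¬ d ∣ a) ≤
          Multiset.card (A.filter fun a => ¬ 17 ∣ a) := Multiset.card_le_card (Multiset.filter_le _ _)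
        have h5 : Multiset.card ((A.filter fun a => ¬ 17 ∣ a).filter fun a => ¬ d ∣ a) ≤ 8 := by
          omega
        exact_mod_cast h5
      have hdz : (0 : ℤ) < d := by exact_mod_cast Nat.pos_of_ne_zero hdne
      push_cast at h2
      nlinarith) with h0 | ⟨c, hc, -, hc8, ⟨-, h16, -⟩ | ⟨hodd2, -, -⟩⟩
    · exact hzero 17 d hq hd.symm h0 (Or.inl hqd)
    · exact absurd (dvd_odd_mul (k := 4) H.dodd (by norm_num) h16) hc
    · omega
  by_cases h13 : 13 ∣ m
  · obtain ⟨d, hd⟩ := h13
    have hq : Nat.Prime 13 := by norm_num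
    by_cases hqd : 13 ∣ d
    · exact hpow 13 d hq hd.symm (by norm_num) hqd
    have H := mkSetting hq hd.symm hodd A hrel
    have hc1 := card_split 13 A
    have hdne := H.hd
    have hdm : d ∣ m := ⟨13, by rw [hd]; ring⟩
    have hP : ∀ p, p.Prime → p ∣ d → p = 3 ∨ p = 5 ∨ p = 7 ∨ p = 11 := by
      intro p hp hpd
      have h1 := h19 p hp (hpd.trans hdm)
      have h2 := hp.two_le
      interval_cases p
      all_goals first
        | (exfalso; revert hp; norm_num; done)
        | (exfalso; have := H.dodd; omega)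
        | (exfalso; exact h17 (hpd.trans hdm))
        | (exfalso; exact hqd hpd)
        | simp
    rcases dichotomy H hqd (h := 6) rfl (by norm_num) (by omega) (ndvd_split hd.symm hA) (by
      intro hex
      by_cases hd1 : d = 1
      · have h1 := hex 1 (Nat.coprime_one_left d)
        have h2 := SW_abs hdne ((A.filter fun a => ¬ 13 ∣ a).filter fun a => ¬ d ∣ a) 1
        rw [h1, hd1] at h2
        norm_num at h2
      · refine no_const (by omega) H.dodd _ (fun a ha => (Multiset.mem_filter.mp ha).2) 6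
          (by norm_num) (fun _ => hP) ?_ hex
        have h4 : Multiset.card ((A.filter fun a => ¬ 13 ∣ a).filter fun a => ¬ d ∣ a) ≤
          Multiset.card (A.filter fun a => ¬ 13 ∣ a) := Multiset.card_le_card (Multiset.filter_le _ _)
        omega) with h0 | ⟨c, hc, hS, hc8, ⟨-, h12, hS2⟩ | ⟨-, h14, -⟩⟩
    · exact hzero 13 d hq hd.symm h0 (Or.inl hqd)
    · have h3c : d ∣ 3 * c := dvd_odd_mul (k := 2) H.dodd (by norm_num : 4 = 2 ^ 2) (by
        rw [← mul_assoc]; exact h12)
      obtain ⟨l, τ, hl, hτ, hcτ⟩ := order_three hdne h3c hc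
      obtain ⟨E, hE1, hE2, hE3⟩ := exists_E13 τ hτ
      have hlm : l * 39 = m := by rw [hd, hl]; ring
      have h1 := compare H hqd hl hcτ hS E hE1 (fun z hz => by rw [hE3 z hz]; norm_num) (by
        intro t ht
        have h2 := H.hrel t ht
        rw [hS2 t (Nat.Coprime.coprime_dvd_right hdm ht)] at h2
        rw [hE2 t (Nat.Coprime.coprime_dvd_right (Dvd.intro_left l hlm) ht)]
        linarith) Q C hC
      have h2 := hK l 39 hlm h39 E (fun x hx h => hE1 x hx (dvd_trans (by norm_num) h)) hE2
      rw [split_sumE (q := 13), h1, h2, zero_add]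
      exact hIH 13 d hq hd.symm _ (by omega) (ndvd_split hd.symm hA) hS2
    · exfalso
      have h7c : d ∣ 7 * c := dvd_odd_mul (k := 1) H.dodd (by norm_num : 2 = 2 ^ 1) (by
        rw [← mul_assoc]; exact h14)
      exact fine H hqd (h := 6) rfl hc (by norm_num : Nat.Prime 7) (by norm_num) h7c hS
  by_cases h11 : 11 ∣ m
  · obtain ⟨d, hd⟩ := h11
    have hq : Nat.Prime 11 := by norm_num
    by_cases hqd : 11 ∣ d
    · exact hpow 11 d hq hd.symm (by norm_num) hqd
    have H := mkSetting hq hd.symm hodd A hrel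
    have hc1 := card_split 11 A
    have hdne := H.hd
    have hdm : d ∣ m := ⟨11, by rw [hd]; ring⟩
    have hP : ∀ p, p.Prime → p ∣ d → p = 3 ∨ p = 5 ∨ p = 7 ∨ p = 11 := by
      intro p hp hpd
      have h1 := h19 p hp (hpd.trans hdm)
      have h2 := hp.two_le
      interval_cases p
      all_goals first
        | (exfalso; revert hp; norm_num; done)
        | (exfalso; have := H.dodd; omega)
        | (exfalso; exact h17 (hpd.trans hdm))
        | (exfalso; exact h13 (hpd.trans hdm))
        | simp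
    rcases dichotomy H hqd (h := 5) rfl (by norm_num) (by omega) (ndvd_split hd.symm hA) (by
      intro hex
      by_cases hd1 : d = 1
      · have h1 := hex 1 (Nat.coprime_one_left d)
        have h2 := SW_abs hdne ((A.filter fun a => ¬ 11 ∣ a).filter fun a => ¬ d ∣ a) 1
        rw [h1, hd1] at h2
        norm_num at h2
      · refine no_const (by omega) H.dodd _ (fun a ha => (Multiset.mem_filter.mp ha).2) 5
          (by norm_num) (fun _ => hP) ?_ hex
        have h4 : Multiset.card ((A.filter fun a => ¬ 11 ∣ a).filter fun a => ¬ d ∣ a) ≤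
          Multiset.card (A.filter fun a => ¬ 11 ∣ a) := Multiset.card_le_card (Multiset.filter_le _ _)
        omega) with h0 | ⟨c, hc, hS, hc8, ⟨-, h10, -⟩ | ⟨-, h12, hS2⟩⟩
    · exact hzero 11 d hq hd.symm h0 (Or.inl hqd)
    · exfalso
      have h5c : d ∣ 5 * c := dvd_odd_mul (k := 1) H.dodd (by norm_num : 2 = 2 ^ 1) (by
        rw [← mul_assoc]; exact h10)
      exact fine H hqd (h := 5) rfl hc (by norm_num : Nat.Prime 5) (by norm_num) h5c hS
    · have h3c : d ∣ 3 * c := dvd_odd_mul (k := 2) H.dodd (by norm_num : 4 = 2 ^ 2) (by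
        rw [← mul_assoc]; exact h12)
      obtain ⟨l, τ, hl, hτ, hcτ⟩ := order_three hdne h3c hc
      obtain ⟨E, hE1, hE2, hE3⟩ := exists_E11 τ hτ
      have hlm : l * 33 = m := by rw [hd, hl]; ring
      have hl3 : l * 3 = d := by rw [hl]; ring
      have hsvl : ∀ z, sv d (z * c) = l * sv 3 (z * τ) := by
        intro z
        rw [← sv_level hdne hl3, sv_per (hcτ.mul_left z)]
        congr 1; ring
      have h1 := compare H hqd hl hcτ hS E hE1 (fun z hz => by rw [hE3 z hz]; norm_num) (by
        intro t ht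
        have h2 := H.hrel t ht
        rw [hS2 t (Nat.Coprime.coprime_dvd_right hdm ht), hsvl] at h2
        rw [hE2 t (Nat.Coprime.coprime_dvd_right (Dvd.intro_left l hlm) ht)]
        push_cast at h2
        linear_combination h2) Q C hC
      -- the relation of level `d`
      have h2 := hIH 11 d hq hd.symm (((A.filter fun a => 11 ∣ a).map fun a => a / 11) + {c})
        (by rw [Multiset.card_add, Multiset.card_singleton]; omega)
        (by
          intro b hb
          rcases Multiset.mem_add.mp hb with hb | hb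
          · exact ndvd_split hd.symm hA b hb
          · rw [Multiset.mem_singleton] at hb; rw [hb]; exact hc)
        (by
          intro t ht
          rw [SW_add, hS2 t ht, SW_single hdne]
          ring)
      rw [Multiset.map_add, Multiset.sum_add, Multiset.map_singleton, Multiset.sum_singleton] at h2
      -- the relation of level 33
      have h3 := hK l 33 hlm h33 (E + {11 * (3 - τ)}) (by
        intro b hb
        rcases Multiset.mem_add.mp hb with hb | hb
        · exact fun h => hE1 b hb (dvd_trans (by norm_num) h)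
        · rw [Multiset.mem_singleton] at hb; rw [hb]
          rcases hτ with rfl | rfl <;> norm_num) (by
        intro t ht
        rw [SW_add, hE2 t ht, SW_single (by norm_num)]
        have h4 := sv_level (q := 11) (d := 3) (m := 33) (by norm_num) (by norm_num)
          (t * (3 - τ))
        have h5 : t * (11 * (3 - τ)) = 11 * (t * (3 - τ)) := by ring
        rw [h5, h4]
        have h6 : sv 3 (t * (3 - τ)) = - sv 3 (t * τ) := by
          apply sv_neg (by norm_num)
          have : t * τ + t * (3 - τ) = 3 * t := by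
            rcases hτ with rfl | rfl
            · norm_num; ring
            · norm_num; ring
          rw [this]; exact Dvd.intro t rfl
        rw [h6]; push_cast; ring)
      rw [Multiset.map_add, Multiset.sum_add, Multiset.map_singleton,
        Multiset.sum_singleton] at h3
      have h4 : ((l * (11 * (3 - τ)) : ℕ) : ZMod m) = - ((11 * c : ℕ) : ZMod m) := by
        have h5 : 11 * c ≡ 11 * (l * τ) [MOD m] := by
          have := Nat.ModEq.mul_left' 11 hcτ
          rwa [← hd] at this
        have h6 : ((11 * c : ℕ) : ZMod m) = ((11 * (l * τ) : ℕ) : ZMod m) :=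
          (ZMod.natCast_eq_natCast_iff _ _ _).mpr h5
        rw [h6]
        have h7 : ((l * (11 * (3 - τ)) + 11 * (l * τ) : ℕ) : ZMod m) = 0 := by
          rw [ZMod.natCast_eq_zero_iff, hd, hl]
          rcases hτ with rfl | rfl
          · exact ⟨1, by norm_num; ring⟩
          · exact ⟨1, by norm_num; ring⟩
        rw [Nat.cast_add] at h7
        exact eq_neg_of_add_eq_zero_left h7
      rw [h4, hC.neg] at h3
      have h5 : (E.map fun x : ℕ => C ((l * x : ℕ) : ZMod m)).sum = C ((11 * c : ℕ) : ZMod m) := by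
        have := h3
        rwa [← sub_eq_add_neg, sub_eq_zero] at this
      rw [split_sumE (q := 11), h1, h5, add_comm]
      exact h2
  -- no large prime factor
  exfalso
  apply hg
  intro p hp hpm
  have h1 := h19 p hp hpm
  have h2 := hp.two_le
  interval_cases p
  all_goals first
    | (exfalso; revert hp; norm_num; done)
    | (exfalso; omega)
    | (exfalso; exact h17 hpm)
    | (exfalso; exact h13 hpm)
    | (exfalso; exact h11 hpm)
    | simp

end Pool.Agent.U270.SX
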