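import Pool.Agent.Y2.EvenA

/-!
# Sums of signs which are extremal

Let `q` be a prime factor of the odd number `m = q d`, `q ∤ d`, and let `A1` be the part prime to `q`
of a relation of level `m`. If the sum of the signs of level `d` over `A1` is `± (q - 1) / 2` for all
units then the sum of the sawtooth values is `(q - 1) / 2` times that of a single residue `c`.
-/

set_option autoImplicit false

namespace Pool.Agent.U270.SX

open Finset Pool.Agent.H916R2 Pool.Agent.Y2

/-- the sum of the least residues -/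
def RS (d : ℕ) (A : Multiset ℕ) (z : ℕ) : ℕ := (A.map fun a => (z * a) % d).sum

lemma RS_add_le (d : ℕ) (A : Multiset ℕ) (x y : ℕ) : RS d A (x + y) ≤ RS d A x + RS d A y := by
  unfold RS
  induction A using Multiset.induction_on with
  | empty => simp
  | cons a A ih =>
    simp only [Multiset.map_cons, Multiset.sum_cons]
    have h1 : ((x + y) * a) % d ≤ (x * a) % d + (y * a) % d := by
      rw [add_mul, Nat.add_mod]
      exact Nat.mod_le _ _
    omega

lemma SW_RS {d : ℕ} (hd : d ≠ 0) (A : Multiset ℕ) (hA : ∀ a ∈ A, ¬ d ∣ a) {z : ℕ}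
    (hz : Nat.Coprime z d) : SW d A z = 2 * (RS d A z : ℤ) - Multiset.card A * d := by
  rw [SW_sv hd]
  unfold RS
  induction A using Multiset.induction_on with
  | empty => simp
  | cons a A ih =>
    have h1 : ¬ d ∣ z * a := by
      rw [dvd_coprime_mul hz]; exact hA a (Multiset.mem_cons_self a A)
    rw [Multiset.map_cons, Multiset.sum_cons, ih (fun b hb => hA b (Multiset.mem_cons_of_mem hb)),
      Multiset.map_cons, Multiset.sum_cons, Multiset.card_cons, sv_of h1]
    push_cast
    ring

lemma RS_neg {d : ℕ} (hd : d ≠ 0) (A : Multiset ℕ) (hA : ∀ a ∈ A, ¬ d ∣ a) {x y : ℕ}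
    (hx : Nat.Coprime x d) (hxy : d ∣ x + y) : RS d A x + RS d A y = Multiset.card A * d := by
  unfold RS
  induction A using Multiset.induction_on with
  | empty => simp
  | cons a A ih =>
    simp only [Multiset.map_cons, Multiset.sum_cons, Multiset.card_cons]
    have h1 := ih (fun b hb => hA b (Multiset.mem_cons_of_mem hb))
    have h2 : ¬ d ∣ x * a := by
      rw [dvd_coprime_mul hx]; exact hA a (Multiset.mem_cons_self a A)
    have h3 : d ∣ x * a + y * a := by rw [← add_mul]; exact hxy.mul_right a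
    have h4 : (x * a) % d + (y * a) % d = d := by
      have h5 : ((x * a) % d + (y * a) % d) % d = 0 := by
        rw [← Nat.add_mod]; exact Nat.mod_eq_zero_of_dvd h3
      have h6 := mod_pos h2
      have h7 : (x * a) % d < d := Nat.mod_lt _ (Nat.pos_of_ne_zero hd)
      have h8 : (y * a) % d < d := Nat.mod_lt _ (Nat.pos_of_ne_zero hd)
      obtain ⟨k, hk⟩ := Nat.dvd_of_mod_eq_zero h5
      have h9 : k = 1 := by
        rcases Nat.lt_or_ge k 1 with h | h
        · have : k = 0 := by omega
          rw [this] at hk; omega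
        · rcases Nat.lt_or_ge 1 k with h' | h'
          · have : d * 2 ≤ d * k := Nat.mul_le_mul_left d h'
            omega
          · omega
      rw [hk, h9, mul_one]
    have h10 : (Multiset.card A + 1) * d = Multiset.card A * d + d := by ring
    omega

lemma gap_aux : ∀ r < 1155, ∃ i < 7, (r + i) % 3 ≠ 0 ∧ (r + i) % 5 ≠ 0 ∧ (r + i) % 7 ≠ 0 ∧
    (r + i) % 11 ≠ 0 := by
  decide +kernel

lemma gap {d : ℕ} (hP : ∀ p, p.Prime → p ∣ d → p = 3 ∨ p = 5 ∨ p = 7 ∨ p = 11) {k : ℕ}
    (hk : 8 ≤ k) : ∃ g, 1 ≤ g ∧ g ≤ 7 ∧ Nat.Coprime (k - g) d := by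
  obtain ⟨i, hi, h3, h5, h7, h11⟩ := gap_aux ((k - 7) % 1155) (Nat.mod_lt _ (by norm_num))
  refine ⟨7 - i, by omega, by omega, ?_⟩
  have e : k - (7 - i) = (k - 7) + i := by omega
  rw [e]
  have key : ∀ n, n ∣ 1155 → ((k - 7) % 1155 + i) % n = ((k - 7) + i) % n := by
    intro n hn
    rw [Nat.add_mod, Nat.mod_mod_of_dvd _ hn, ← Nat.add_mod]
  rw [key 3 (by norm_num)] at h3
  rw [key 5 (by norm_num)] at h5
  rw [key 7 (by norm_num)] at h7
  rw [key 11 (by norm_num)] at h11
  apply Nat.Coprime.symm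
  apply Nat.coprime_of_dvd
  intro p hp hpd hpx
  rcases hP p hp hpd with rfl | rfl | rfl | rfl
  · exact h3 (Nat.mod_eq_zero_of_dvd hpx)
  · exact h5 (Nat.mod_eq_zero_of_dvd hpx)
  · exact h7 (Nat.mod_eq_zero_of_dvd hpx)
  · exact h11 (Nat.mod_eq_zero_of_dvd hpx)

/-- the sum of the sawtooth values does not have absolute value `h d` for all units -/
theorem no_const {d : ℕ} (hd1 : 1 < d) (hodd : d % 2 = 1)
    (A : Multiset ℕ) (hA : ∀ a ∈ A, ¬ d ∣ a) (h : ℕ) (h5 : 5 ≤ h)
    (hP' : h < Multiset.card A → ∀ p, p.Prime → p ∣ d → p = 3 ∨ p = 5 ∨ p = 7 ∨ p = 11)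
    (hn : Multiset.card A ≤ h + 3)
    (hS : ∀ z, Nat.Coprime z d → |SW d A z| = h * d) : False := by
  have hd : d ≠ 0 := by omega
  set n := Multiset.card A with hn'
  have hdz : (0 : ℤ) < d := by exact_mod_cast Nat.pos_of_ne_zero hd
  have hval : ∀ z, Nat.Coprime z d → 2 * RS d A z = (n + h) * d ∨
      2 * RS d A z + h * d = n * d := by
    intro z hz
    have h1 := hS z hz
    rw [SW_RS hd A hA hz] at h1
    rcases abs_cases (2 * (RS d A z : ℤ) - (Multiset.card A : ℕ) * d) with ⟨h2, _⟩ | ⟨h2, _⟩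
    · left
      rw [h2] at h1
      have : (2 * (RS d A z : ℤ)) = (n + h) * d := by rw [← hn'] at h1; linarith
      exact_mod_cast this
    · right
      rw [h2] at h1
      have : (2 * (RS d A z : ℤ)) + h * d = n * d := by rw [← hn'] at h1; linarith
      exact_mod_cast this
  have hpar : (n + h) % 2 = 0 := by
    have hz1 := Nat.coprime_one_left d
    rcases hval 1 hz1 with h1 | h1
    · have h2 : Even ((n + h) * d) := ⟨RS d A 1, by omega⟩
      rcases Nat.even_mul.mp h2 with h3 | h3
      · exact Nat.even_iff.mp h3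
      · have := Nat.even_iff.mp h3; omega
    · have h2 : Even ((n + h) * d) := ⟨RS d A 1 + h * d, by
        have : (n + h) * d = n * d + h * d := by ring
        omega⟩
      rcases Nat.even_mul.mp h2 with h3 | h3
      · exact Nat.even_iff.mp h3
      · have := Nat.even_iff.mp h3; omega
  have hbig : h < n := by
    have hz1 := Nat.coprime_one_left d
    have h1 := SW_abs hd A 1
    rw [hS 1 hz1, ← hn'] at h1
    by_contra hcon
    push Not at hcon
    have h2 : (n : ℤ) ≤ h := by exact_mod_cast hcon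
    have h3 : (5 : ℤ) ≤ h := by exact_mod_cast h5
    nlinarith
  have hn2 : n = h + 2 := by omega
  have hP := hP' hbig
  have hval' : ∀ z, Nat.Coprime z d → RS d A z = (h + 1) * d ∨ RS d A z = d := by
    intro z hz
    rcases hval z hz with h1 | h1
    · left
      rw [hn2] at h1
      have : (h + 2 + h) * d = 2 * ((h + 1) * d) := by ring
      omega
    · right
      rw [hn2] at h1
      have : (h + 2) * d = h * d + 2 * d := by ring
      omega
  have hcop1 : Nat.Coprime (d - 1) d := by
    have h1 := Nat.coprime_self_sub_right (m := 1) (n := d) (by omega)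
    rw [Nat.coprime_comm]
    exact h1.mpr (Nat.coprime_one_right d)
  have small : ∀ z, Nat.Coprime z d → RS d A z ≤ 5 * d → RS d A z = d := by
    intro z hz h1
    rcases hval' z hz with h2 | h2
    · exfalso
      have h3 : 6 * d ≤ (h + 1) * d := Nat.mul_le_mul_right d (by omega)
      omega
    · exact h2
  obtain ⟨u, hu, hRu⟩ : ∃ u, Nat.Coprime u d ∧ RS d A u = d := by
    have hz1 := Nat.coprime_one_left d
    rcases hval' 1 hz1 with h1 | h1
    · refine ⟨d - 1, hcop1, ?_⟩
      have h2 := RS_neg hd A hA hz1 (y := d - 1) (by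
        have : 1 + (d - 1) = d := by omega
        rw [this])
      rw [h1, ← hn', hn2] at h2
      have : (h + 2) * d = (h + 1) * d + d := by ring
      omega
    · exact ⟨1, hz1, h1⟩
  have h2c := two_coprime hodd
  have hR2 : RS d A (2 * u) = d := by
    apply small _ (Nat.Coprime.mul_left h2c hu)
    have := RS_add_le d A u u
    rw [show u + u = 2 * u by ring, hRu] at this
    omega
  have hR4 : RS d A (4 * u) = d := by
    apply small _ (Nat.Coprime.mul_left (by
      rw [show 4 = 2 * 2 by norm_num]; exact Nat.Coprime.mul_left h2c h2c) hu)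
    have := RS_add_le d A (2 * u) (2 * u)
    rw [show 2 * u + 2 * u = 4 * u by ring, hR2] at this
    omega
  have hg : ∀ g, 1 ≤ g → g ≤ 7 → RS d A (g * u) ≤ 3 * d := by
    intro g hg1 hg7
    have a3 := RS_add_le d A (2 * u) u
    rw [hR2, hRu, show 2 * u + u = 3 * u by ring] at a3
    have a5 := RS_add_le d A (4 * u) u
    rw [hR4, hRu, show 4 * u + u = 5 * u by ring] at a5
    have a6 := RS_add_le d A (4 * u) (2 * u)
    rw [hR4, hR2, show 4 * u + 2 * u = 6 * u by ring] at a6
    have a7 := RS_add_le d A (6 * u) u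
    rw [hRu, show 6 * u + u = 7 * u by ring] at a7
    interval_cases g
    · rw [one_mul, hRu]; omega
    · rw [hR2]; omega
    · omega
    · rw [hR4]; omega
    · omega
    · omega
    · omega
  have hall : ∀ k, 1 ≤ k → Nat.Coprime k d → RS d A (k * u) = d := by
    intro k
    induction k using Nat.strong_induction_on with
    | _ k ih =>
    intro hk1 hkd
    rcases Nat.lt_or_ge k 8 with h8 | h8
    · apply small _ (Nat.Coprime.mul_left hkd hu)
      have := hg k hk1 (by omega)
      omega
    · obtain ⟨g, hg1, hg7, hgc⟩ := gap hP h8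
      have h1 := ih (k - g) (by omega) (by omega) hgc
      apply small _ (Nat.Coprime.mul_left hkd hu)
      have h2 := RS_add_le d A ((k - g) * u) (g * u)
      rw [h1, ← add_mul, show k - g + g = k by omega] at h2
      have h3 := hg g hg1 hg7
      omega
  have h1 := hall (d - 1) (by omega) hcop1
  have h2 := RS_neg hd A hA hu (y := (d - 1) * u) (by
    refine ⟨u, ?_⟩
    obtain ⟨k, rfl⟩ : ∃ k, d = k + 1 := ⟨d - 1, by omega⟩
    simp only [Nat.add_sub_cancel]
    ring)
  rw [h1, hRu, ← hn', hn2] at h2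
  have : (h + 2) * d = h * d + 2 * d := by ring
  have h3 : 5 * d ≤ h * d := Nat.mul_le_mul_right d h5
  omega

/-- **Extremal sums of signs come from one residue.** -/
theorem one_residue {q d m : ℕ} {A1 A2 : Multiset ℕ} (H : Setting q d m A1 A2) (hnd : ¬ q ∣ d)
    {h : ℕ} (hh : 2 * h = q - 1) (h1 : 1 ≤ h)
    (hex : ¬ ∀ z, Nat.Coprime z d → |SW d (A1.filter fun a => ¬ d ∣ a) z| = h * d)
    (hT : ∀ z, Nat.Coprime z d → |ST d A1 z| = h) :
    ∃ c, ¬ d ∣ c ∧ ∀ z, Nat.Coprime z d → SW d A1 z = h * sv d (z * c) := by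
  have hd := H.hd
  have hdo := H.dodd
  have hdz : (0 : ℤ) < d := by exact_mod_cast Nat.pos_of_ne_zero hd
  have hhz : (0 : ℤ) < h := by exact_mod_cast (by omega : 0 < h)
  have hd1 : 1 < d := by
    by_contra hcon
    have h1 : d = 1 := by omega
    have h2 := hT 1 (Nat.coprime_one_left d)
    have h3 : ST d A1 1 = 0 := by
      rw [ST_filter, h1]
      have : A1.filter (fun a => ¬ 1 ∣ a) = 0 := by
        rw [Multiset.filter_eq_nil]
        intro a _ h
        exact h (one_dvd a)
      rw [this]; rfl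
    rw [h3, abs_zero] at h2
    omega
  obtain ⟨h0, hh0, T, hT', -, hdvd⟩ := H.theta_div
  have e1 : h0 = h := by
    rcases hh0 with ⟨_, h2⟩ | ⟨h2, _⟩
    · exact absurd h2 hnd
    · omega
  subst e1
  obtain ⟨h2, hh2, hdiv⟩ := H.div_general
  have e2 : h2 = h0 := by
    rcases hh2 with ⟨_, h3⟩ | ⟨h3, _⟩
    · exact absurd h3 hnd
    · omega
  subst e2
  have hP' := H.PO_dvd
  have hWex : ∀ z, ∃ W : ℤ, Nat.Coprime z d → (h2 : ℤ) * W = SW d A1 z := by
    intro z
    by_cases hz : Nat.Coprime z d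
    · obtain ⟨V, hV⟩ := hdiv _ (ld_saw hd hP' hz)
      exact ⟨V, fun _ => hV⟩
    · exact ⟨0, fun h => absurd h hz⟩
  choose W hW using hWex
  have h2c := two_coprime hdo
  have hT1 : ∀ z, Nat.Coprime z d → T z = 1 ∨ T z = -1 := by
    intro z hz
    have h3 := hT z hz
    rw [← hT' z hz, abs_mul, Nat.abs_cast] at h3
    have h4 : |T z| = 1 := by
      have : (h2 : ℤ) * |T z| = h2 * 1 := by rw [h3, mul_one]
      exact mul_left_cancel₀ hhz.ne' this
    rcases abs_cases (T z) with ⟨h5, _⟩ | ⟨h5, _⟩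
    · left; omega
    · right; omega
  have hrec : ∀ z, Nat.Coprime z d → 2 * W z - W (2 * z) = d * T z := by
    intro z hz
    have h3 := ST_SW hdo A1 z
    rw [← hT' z hz, ← hW z hz, ← hW (2 * z) (Nat.Coprime.mul_left h2c hz)] at h3
    apply mul_left_cancel₀ hhz.ne'
    linear_combination -h3
  have hbound : ∀ z, Nat.Coprime z d → |W z| ≤ d := by
    intro z hz
    have h3 := grow (d := d) (w := 2) le_rfl h2c (fun z => SW d A1 z)
      (Multiset.card A1 * ((d : ℤ) - 1)) (h2 * d) (fun z => SW_abs hd A1 z) (by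
        intro z hz
        have h4 := ST_SW hdo A1 z
        have h5 : ((2 : ℕ) : ℤ) * SW d A1 z - SW d A1 (2 * z) = d * ST d A1 z := by
          rw [h4]; norm_num
        rw [h5, abs_mul, Nat.abs_cast, hT z hz]
        push_cast
        linarith) z hz
    rw [← hW z hz, abs_mul, Nat.abs_cast] at h3
    exact le_of_mul_le_mul_left h3 hhz
  have hWodd : ∀ z, Nat.Coprime z d → W z % 2 = 1 := by
    intro z hz
    obtain ⟨k, hk⟩ : ∃ k, 2 * k = d + 1 := ⟨(d + 1) / 2, by omega⟩
    have hkd : Nat.Coprime k d := by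
      have h3 : Nat.Coprime (2 * k) d := by
        rw [hk]
        have h4 := Nat.coprime_one_left d
        rw [Nat.coprime_self_add_left]
        exact h4
      exact Nat.Coprime.coprime_mul_left h3
    have hz' : Nat.Coprime (k * z) d := Nat.Coprime.mul_left hkd hz
    have h3 := hrec (k * z) hz'
    have h4 : W (2 * (k * z)) = W z := by
      have h5 : 2 * (k * z) ≡ z [MOD d] := by
        have : 2 * (k * z) = d * z + z := by
          rw [show 2 * (k * z) = (2 * k) * z by ring, hk]; ring
        rw [this]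
        have h6 : d * z + z ≡ 0 + z [MOD d] :=
          Nat.ModEq.add_right z ((Nat.modEq_zero_iff_dvd).mpr (Dvd.intro _ rfl))
        rwa [zero_add] at h6
      apply mul_left_cancel₀ hhz.ne'
      rw [hW z hz, hW _ (Nat.Coprime.mul_left h2c hz'), SW_congr _ h5]
    rw [h4] at h3
    have hdo' : (d : ℤ) % 2 = 1 := by exact_mod_cast hdo
    rcases hT1 _ hz' with h5 | h5 <;> rw [h5] at h3 <;> omega
  have hmod : ∀ z, Nat.Coprime z d → (d : ℤ) ∣ W z - z * W 1 := by
    intro z hz
    have h3 := hdvd z hz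
    rw [← hW z hz, ← hW 1 (Nat.coprime_one_left d)] at h3
    have h4 : (h2 : ℤ) * W z - z * (h2 * W 1) = h2 * (W z - z * W 1) := by ring
    rw [h4] at h3
    exact (mul_dvd_mul_iff_left hhz.ne').mp h3
  have hz1 := Nat.coprime_one_left d
  have hdo' : (d : ℤ) % 2 = 1 := by exact_mod_cast hdo
  obtain ⟨c, hc⟩ : ∃ c : ℕ, 2 * (c : ℤ) = W 1 + d := by
    have h3 := hWodd 1 hz1
    have h4 := hbound 1 hz1
    rw [abs_le] at h4
    refine ⟨((W 1 + d) / 2).toNat, ?_⟩
    have h5 : 0 ≤ (W 1 + d) / 2 := by omega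
    rw [Int.toNat_of_nonneg h5]
    omega
  have hck : ∀ z, Nat.Coprime z d → ∃ k : ℕ, W z = 2 * (k : ℤ) - d ∧ k ≤ d ∧ k ≡ z * c [MOD d] := by
    intro z hz
    have h3 := hWodd z hz
    have h4 := hbound z hz
    rw [abs_le] at h4
    have h5 : 0 ≤ (W z + d) / 2 := by omega
    have h6 : (((W z + d) / 2).toNat : ℤ) = (W z + d) / 2 := Int.toNat_of_nonneg h5
    refine ⟨((W z + d) / 2).toNat, by rw [h6]; omega, by omega, ?_⟩
    obtain ⟨y, hy⟩ := hmod z hz
    rw [← Int.natCast_modEq_iff, Int.modEq_iff_dvd, h6]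
    have h7 : (d : ℤ) ∣ 2 * (((z * c : ℕ) : ℤ) - (W z + d) / 2) := by
      have h8 : 2 * ((W z + d) / 2) = W z + d := by omega
      refine ⟨z - 1 - y, ?_⟩
      push_cast
      have h9 : 2 * ((z : ℤ) * c - (W z + d) / 2) = z * (2 * c) - 2 * ((W z + d) / 2) := by ring
      rw [h9, h8, hc]
      linear_combination -hy
    have h8 : IsCoprime (d : ℤ) 2 := by
      have := Nat.isCoprime_iff_coprime.mpr (Nat.coprime_comm.mp h2c)
      exact_mod_cast this
    exact h8.dvd_of_dvd_mul_left h7
  by_cases hdc : d ∣ c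
  · exfalso
    apply hex
    intro z hz
    rw [← SW_filter hd, ← hW z hz, abs_mul, Nat.abs_cast]
    congr 1
    obtain ⟨k, hk1, hk2, hk3⟩ := hck z hz
    have h3 : d ∣ k := (hk3.dvd_iff dvd_rfl).mpr (hdc.mul_left z)
    obtain ⟨y, hy⟩ := h3
    have h4 : y = 0 ∨ y = 1 := by
      rcases Nat.lt_or_ge y 2 with h | h
      · omega
      · exfalso
        have : d * 2 ≤ d * y := Nat.mul_le_mul_left d h
        omega
    rcases h4 with rfl | rfl
    · rw [hk1, hy, mul_zero]
      push_cast
      rw [zero_sub, abs_neg, abs_of_pos hdz]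
    · rw [hk1, hy, mul_one]
      have : 2 * (d : ℤ) - d = d := by ring
      rw [this, abs_of_pos hdz]
  · refine ⟨c, hdc, fun z hz => ?_⟩
    obtain ⟨k, hk1, hk2, hk3⟩ := hck z hz
    have h3 : ¬ d ∣ z * c := by rwa [dvd_coprime_mul hz]
    have h4 : k < d := by
      rcases Nat.lt_or_ge k d with h | h
      · exact h
      · exfalso
        have : k = d := by omega
        apply h3
        exact (hk3.dvd_iff dvd_rfl).mp (by rw [this])
    have h5 : (z * c) % d = k := by
      have : k % d = (z * c) % d := hk3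
      rw [← this, Nat.mod_eq_of_lt h4]
    rw [← hW z hz, hk1, sv_of h3, h5]

end Pool.Agent.U270.SX
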